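import Mathlib
import Pool.Agent.X5.ConeFix

set_option autoImplicit false

/-!
# MP_735b88_an: a fixed point set without a differentiable retraction

On `ℝ ^ 3` with the polyhedral norm `max (24 |x|, 24 |y|, |z|)` the real analytic map
`(x, y, z) ↦ (x, y, z - (z r² - x³) / (3 (1 + r²)))`, `r² = x² + y² + z²`, is nonexpansive. Its
fixed point set is the cone `z r² = x³`, which is not closed under addition. A retraction of `ℝ ^ 3` onto
a closed cone that is differentiable at `0` has a derivative at `0` with image in the cone and fixing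
the cone, so that the cone is a linear subspace.
-/

namespace Pool.Agent.Results.MP_735b88_an.NoDifferentiableRetraction

open Set Pool.Agent.X5

/-- The seminorm `N` on `ℝ ^ n` is a polyhedral norm: it is definite, and it is the maximum of
finitely many linear functionals. -/
def IsPolyhedralNorm {n : ℕ} (N : Seminorm ℝ (Fin n → ℝ)) : Prop :=
  (∀ x, N x = 0 → x = 0) ∧
    ∃ (m : ℕ) (φ : Fin m → ((Fin n → ℝ) →ₗ[ℝ] ℝ)), ∀ x,
      IsGreatest (Set.range fun i => φ i x) (N x)

/-- `f` is nonexpansive for the norm `N`. -/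
def IsNonexpansive {n : ℕ} (N : Seminorm ℝ (Fin n → ℝ)) (f : (Fin n → ℝ) → (Fin n → ℝ)) : Prop :=
  ∀ x y, N (f x - f y) ≤ N (x - y)

/-- `r` is a retraction of `ℝ ^ n` onto `A`. -/
def IsRetractionOnto {n : ℕ} (A : Set (Fin n → ℝ)) (r : (Fin n → ℝ) → (Fin n → ℝ)) : Prop :=
  range r = A ∧ ∀ a ∈ A, r a = a

/-- **Q1 is false**: there are a polyhedral norm on some `ℝ ^ n` and a nonexpansive real analytic map
`f` with a fixed point such that no retraction of `ℝ ^ n` onto the fixed point set of `f` is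
differentiable (whether nonexpansive or not). -/
theorem result : ∃ (n : ℕ) (N : Seminorm ℝ (Fin n → ℝ)) (f : (Fin n → ℝ) → (Fin n → ℝ)),
    1 ≤ n ∧ IsPolyhedralNorm N ∧ IsNonexpansive N f ∧ AnalyticOnNhd ℝ f univ ∧
      {x | f x = x}.Nonempty ∧
      ¬ ∃ r : (Fin n → ℝ) → (Fin n → ℝ), IsRetractionOnto {x | f x = x} r ∧ Differentiable ℝ r := by
  refine ⟨3, ConeFix.N, ConeFix.f, by norm_num, ⟨ConeFix.N_definite, 6,
    ![ConeFix.φ 0, -ConeFix.φ 0, ConeFix.φ 1, -ConeFix.φ 1, ConeFix.φ 2, -ConeFix.φ 2],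
    fun x => ⟨?_, ?_⟩⟩, ConeFix.nonexpansive, ConeFix.analytic_f, ?_, ?_⟩
  · rw [ConeFix.N_apply]
    rcases max_choice |24 * x 0| (max |24 * x 1| |x 2|) with h | h
    · rw [h]
      rcases abs_choice (24 * x 0) with h | h
      · rw [h]
        exact ⟨0, by simp [ConeFix.φ]⟩
      · rw [h]
        exact ⟨1, by simp [ConeFix.φ]⟩
    · rw [h]
      rcases max_choice |24 * x 1| |x 2| with h | h
      · rw [h]
        rcases abs_choice (24 * x 1) with h | h
        · rw [h]
          exact ⟨2, by simp [ConeFix.φ]⟩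
        · rw [h]
          exact ⟨3, by simp [ConeFix.φ]⟩
      · rw [h]
        rcases abs_choice (x 2) with h | h
        · rw [h]
          exact ⟨4, by simp [ConeFix.φ]⟩
        · rw [h]
          exact ⟨5, by simp [ConeFix.φ]⟩
  · rintro _ ⟨i, rfl⟩
    rw [ConeFix.N_apply]
    have a0 : |24 * x 0| ≤ max |24 * x 0| (max |24 * x 1| |x 2|) := le_max_left _ _
    have a1 : |24 * x 1| ≤ max |24 * x 0| (max |24 * x 1| |x 2|) :=
      (le_max_left _ _).trans (le_max_right _ _)
    have a2 : |x 2| ≤ max |24 * x 0| (max |24 * x 1| |x 2|) :=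
      (le_max_right _ _).trans (le_max_right _ _)
    fin_cases i
    · have : ConeFix.φ 0 x = 24 * x 0 := by simp [ConeFix.φ]
      show ConeFix.φ 0 x ≤ _
      rw [this]
      exact (le_abs_self _).trans a0
    · have : ConeFix.φ 0 x = 24 * x 0 := by simp [ConeFix.φ]
      show -ConeFix.φ 0 x ≤ _
      rw [this]
      exact (neg_le_abs _).trans a0
    · have : ConeFix.φ 1 x = 24 * x 1 := by simp [ConeFix.φ]
      show ConeFix.φ 1 x ≤ _
      rw [this]
      exact (le_abs_self _).trans a1
    · have : ConeFix.φ 1 x = 24 * x 1 := by simp [ConeFix.φ]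
      show -ConeFix.φ 1 x ≤ _
      rw [this]
      exact (neg_le_abs _).trans a1
    · have : ConeFix.φ 2 x = x 2 := by simp [ConeFix.φ]
      show ConeFix.φ 2 x ≤ _
      rw [this]
      exact (le_abs_self _).trans a2
    · have : ConeFix.φ 2 x = x 2 := by simp [ConeFix.φ]
      show -ConeFix.φ 2 x ≤ _
      rw [this]
      exact (neg_le_abs _).trans a2
  · rw [ConeFix.fix_f]
    exact ⟨0, ConeFix.zero_mem_M⟩
  · rw [ConeFix.fix_f]
    rintro ⟨r, ⟨hr1, hr2⟩, hd⟩
    obtain ⟨a, b, ha, hb, hab⟩ := ConeFix.M_not_add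
    exact hab (ConeFix.add_mem_of_retract ConeFix.M_closed (fun c hc t => ConeFix.M_smul hc t)
      ConeFix.zero_mem_M r (fun x => hr1 ▸ mem_range_self x) hr2 (hd 0) a b ha hb)

end Pool.Agent.Results.MP_735b88_an.NoDifferentiableRetraction
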